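import Pool.Agent.H261R3.LN.LStmts

/-! Task LBConcat of project LM: concatenation of Lipschitz paths with optimal speed. -/

set_option autoImplicit false

open scoped unitInterval

namespace Pool.Agent.H261R3.LN

theorem pext_lip {S : Type} [MetricSpace S] {x y : S} {u : Path x y} {A : ℝ} (hA : 0 < A)
    (hu : PLip A u) (r r' : ℝ) : dist (u.extend r) (u.extend r') ≤ A * |r - r'| := by
  have h1 := hu (Set.projIcc 0 1 zero_le_one r) (Set.projIcc 0 1 zero_le_one r')
  refine h1.trans ?_
  exact mul_le_mul_of_nonneg_left (Set.abs_projIcc_sub_projIcc zero_le_one) hA.le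

theorem taskLBConcat : TaskLBConcat := by
  intro S _ x y z u v A B hA hB hu hv
  have hAB : 0 < A + B := by linarith
  let f : ℝ → ℝ := fun t =>
    min (t * (A + B) / (2 * A)) (1 / 2) + max ((t * (A + B) - A) / (2 * B)) 0
  have hfs : ∀ t : ℝ, t * (A + B) ≤ A → f t = t * (A + B) / (2 * A) := by
    intro t ht
    have h1 : t * (A + B) / (2 * A) ≤ 1 / 2 := by
      rw [div_le_iff₀ (by linarith)]; linarith
    have h2 : (t * (A + B) - A) / (2 * B) ≤ 0 :=
      div_nonpos_of_nonpos_of_nonneg (by linarith) (by linarith)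
    simp only [f]
    rw [min_eq_left h1, max_eq_right h2, add_zero]
  have hfl : ∀ t : ℝ, A ≤ t * (A + B) → f t = 1 / 2 + (t * (A + B) - A) / (2 * B) := by
    intro t ht
    have h1 : 1 / 2 ≤ t * (A + B) / (2 * A) := by
      rw [le_div_iff₀ (by linarith)]; linarith
    have h2 : 0 ≤ (t * (A + B) - A) / (2 * B) :=
      div_nonneg (by linarith) (by linarith)
    simp only [f]
    rw [min_eq_right h1, max_eq_left h2]
  have hf0 : f 0 = 0 := by
    rw [hfs 0 (by linarith)]; simp
  have hf1 : f 1 = 1 := by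
    rw [hfl 1 (by linarith)]
    field_simp
    ring
  have hfc : Continuous f := by
    apply Continuous.add
    · exact Continuous.min (by fun_prop) continuous_const
    · exact Continuous.max (by fun_prop) continuous_const
  let φ : I → I := fun t => Set.projIcc 0 1 zero_le_one (f t)
  have hφ0 : φ 0 = 0 := by
    show Set.projIcc (0 : ℝ) 1 zero_le_one (f (0 : ℝ)) = 0
    rw [hf0]
    exact Set.projIcc_left zero_le_one
  have hφ1 : φ 1 = 1 := by
    show Set.projIcc (0 : ℝ) 1 zero_le_one (f (1 : ℝ)) = 1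
    rw [hf1]
    exact Set.projIcc_right zero_le_one
  have hφc : Continuous φ := continuous_projIcc.comp (hfc.comp continuous_subtype_val)
  let w : Path x z := (u.trans v).reparam φ hφc hφ0 hφ1
  have hw : ∀ t : I, w t = if ((φ t : I) : ℝ) ≤ 1 / 2 then u.extend (2 * (φ t : ℝ)) else
      v.extend (2 * (φ t : ℝ) - 1) := fun t => rfl
  have hφv : ∀ t : I, 0 ≤ f t → f t ≤ 1 → ((φ t : I) : ℝ) = f t := by
    intro t h0 h1
    show ((Set.projIcc (0 : ℝ) 1 zero_le_one (f t) : I) : ℝ) = f t
    rw [Set.projIcc_of_mem zero_le_one ⟨h0, h1⟩]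
  have hs : ∀ t : I, (t : ℝ) * (A + B) ≤ A → w t = u.extend (t * (A + B) / A) := by
    intro t ht
    have h1 := hfs t ht
    have h2 : f t ≤ 1 / 2 := by
      rw [h1, div_le_iff₀ (by linarith)]; linarith
    have h3 : 0 ≤ f t := by
      rw [h1]
      have := t.2.1
      positivity
    have h4 := hφv t h3 (by linarith)
    rw [hw t, h4, if_pos h2, h1]
    congr 1
    field_simp
  have hl : ∀ t : I, A ≤ (t : ℝ) * (A + B) → w t = v.extend ((t * (A + B) - A) / B) := by
    intro t ht
    have h1 := hfl t ht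
    have h2 : f t ≤ 1 := by
      rw [h1]
      have h5 : (t : ℝ) * (A + B) ≤ A + B := by
        have := t.2.2
        nlinarith
      have h6 : ((t : ℝ) * (A + B) - A) / (2 * B) ≤ 1 / 2 := by
        rw [div_le_iff₀ (by linarith)]; linarith
      linarith
    have h3 : 1 / 2 ≤ f t := by
      rw [h1]
      have : 0 ≤ ((t : ℝ) * (A + B) - A) / (2 * B) := div_nonneg (by linarith) (by linarith)
      linarith
    have h4 := hφv t (by linarith) h2
    rcases eq_or_lt_of_le ht with h | h
    · have h5 : f t = 1 / 2 := by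
        rw [h1, ← h]; simp
      rw [hw t, h4, h5, if_pos le_rfl, ← h]
      norm_num
    · have h5 : ¬ f t ≤ 1 / 2 := by
        rw [h1, not_le]
        have : 0 < ((t : ℝ) * (A + B) - A) / (2 * B) := div_pos (by linarith) (by linarith)
        linarith
      rw [hw t, h4, if_neg h5, h1]
      congr 1
      field_simp
      ring
  have hcross : ∀ s t : I, (s : ℝ) * (A + B) ≤ A → A ≤ (t : ℝ) * (A + B) →
      dist (w s) (w t) ≤ (A + B) * |(s : ℝ) - t| := by
    intro s t h1 h2
    rw [hs s h1, hl t h2]
    have e1 : u.extend 1 = y := u.extend_one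
    have e2 : v.extend 0 = y := v.extend_zero
    have h3 := pext_lip hA hu (s * (A + B) / A) 1
    have h4 := pext_lip hB hv 0 ((t * (A + B) - A) / B)
    rw [e1] at h3
    rw [e2] at h4
    have h5 := dist_triangle (u.extend (s * (A + B) / A)) y (v.extend ((t * (A + B) - A) / B))
    have h6 : A * |(s : ℝ) * (A + B) / A - 1| = A - s * (A + B) := by
      have : (s : ℝ) * (A + B) / A - 1 ≤ 0 := by
        rw [sub_nonpos, div_le_one hA]; exact h1
      rw [abs_of_nonpos this]
      field_simp
      ring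
    have h7 : B * |0 - ((t : ℝ) * (A + B) - A) / B| = t * (A + B) - A := by
      have : 0 ≤ ((t : ℝ) * (A + B) - A) / B := div_nonneg (by linarith) hB.le
      rw [zero_sub, abs_neg, abs_of_nonneg this]
      field_simp
    have h8 : (s : ℝ) ≤ t := by
      by_contra hcon
      push Not at hcon
      nlinarith
    rw [abs_of_nonpos (by linarith : (s : ℝ) - t ≤ 0)]
    rw [h6] at h3
    rw [h7] at h4
    linarith
  refine ⟨w, ⟨(Path.Homotopy.reparam (u.trans v) φ hφc hφ0 hφ1).symm⟩, ?_⟩
  intro s t
  rcases le_total ((s : ℝ) * (A + B)) A with h1 | h1 <;>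
    rcases le_total ((t : ℝ) * (A + B)) A with h2 | h2
  · rw [hs s h1, hs t h2]
    refine (pext_lip hA hu _ _).trans (le_of_eq ?_)
    rw [← sub_div, ← sub_mul, abs_div, abs_mul, abs_of_pos hA, abs_of_pos hAB]
    field_simp
  · exact hcross s t h1 h2
  · rw [dist_comm, abs_sub_comm]
    exact hcross t s h2 h1
  · rw [hl s h1, hl t h2]
    refine (pext_lip hB hv _ _).trans (le_of_eq ?_)
    rw [← sub_div, sub_sub_sub_cancel_right, ← sub_mul, abs_div, abs_mul, abs_of_pos hB,
      abs_of_pos hAB]
    field_simp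

end Pool.Agent.H261R3.LN
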